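import Pool.Agent.U41.PH.Stm0

set_option autoImplicit false

/-!
Project PH, package SV2 (helper187): elimination of the variable `X 0`.
-/

namespace Pool.Agent.U41.PH

open MvPolynomial

namespace SV2p

open Polynomial in
/-- coprime polynomials over a unique factorization domain -/
lemma elim {A : Type} [CommRing A] [IsDomain A] [UniqueFactorizationMonoid A] {P Q : A[X]}
    (hP : Irreducible P) (hdeg : P.natDegree ≠ 0) (hPQ : ¬ P ∣ Q) :
    ∃ (u v : A[X]) (R : A), R ≠ 0 ∧ u * P + v * Q = Polynomial.C R := by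
  have hprim : P.IsPrimitive := hP.isPrimitive hdeg
  let K := FractionRing A
  have h1 : Irreducible (P.map (algebraMap A K)) :=
    (hprim.irreducible_iff_irreducible_map_fraction_map).1 hP
  have h2 : ¬ P.map (algebraMap A K) ∣ Q.map (algebraMap A K) := fun h =>
    hPQ (hprim.dvd_of_fraction_map_dvd_fraction_map h)
  have h3 : IsCoprime (P.map (algebraMap A K)) (Q.map (algebraMap A K)) :=
    (h1.coprime_iff_not_dvd).2 h2
  obtain ⟨u', v', huv⟩ := h3
  obtain ⟨b, hb, hbu⟩ := IsLocalization.integerNormalization_spec (nonZeroDivisors A) u'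
  obtain ⟨c, hc, hcv⟩ := IsLocalization.integerNormalization_spec (nonZeroDivisors A) v'
  have hb0 : b ≠ 0 := nonZeroDivisors.ne_zero hb
  have hc0 : c ≠ 0 := nonZeroDivisors.ne_zero hc
  refine ⟨Polynomial.C c * IsLocalization.integerNormalization (nonZeroDivisors A) u',
    Polynomial.C b * IsLocalization.integerNormalization (nonZeroDivisors A) v', b * c,
    mul_ne_zero hb0 hc0, ?_⟩
  apply Polynomial.map_injective (algebraMap A K) (IsFractionRing.injective A K)
  simp only [Polynomial.map_add, Polynomial.map_mul, Polynomial.map_C, hbu, hcv]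
  have e1 : ∀ (d : A) (w : K[X]), d • w = Polynomial.C (algebraMap A K d) * w := by
    intro d w
    rw [Polynomial.C_mul', algebraMap_smul]
  rw [e1, e1, map_mul, Polynomial.C_mul]
  linear_combination (Polynomial.C (algebraMap A K b) * Polynomial.C (algebraMap A K c)) * huv

lemma fs_rename (k : ℕ) (f : MvPolynomial (Fin k) ℤ) :
    finSuccEquiv ℤ k (rename Fin.succ f) = Polynomial.C f := by
  induction f using MvPolynomial.induction_on with
  | C a =>
    rw [rename_C]
    simp [finSuccEquiv_apply]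
  | add p q hp hq => rw [map_add, map_add, hp, hq, Polynomial.C_add]
  | mul_X p n hp => rw [map_mul, rename_X, map_mul, hp, finSuccEquiv_X_succ, Polynomial.C_mul]

lemma irr_iff (k : ℕ) (h : MvPolynomial (Fin (k + 1)) ℤ) :
    Irreducible (finSuccEquiv ℤ k h) ↔ Irreducible h :=
  MulEquiv.irreducible_iff (finSuccEquiv ℤ k).toMulEquiv

lemma isUnit_rename (k : ℕ) (f : MvPolynomial (Fin k) ℤ) (h : IsUnit (rename Fin.succ f)) :
    IsUnit f := by
  have h1 := h.map (finSuccEquiv ℤ k)
  rw [fs_rename, Polynomial.isUnit_C] at h1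
  exact h1

section tail

variable {k : ℕ}

lemma tail_false : Tail k (fun _ _ => False) := by
  intro ε hε
  refine ⟨0, fun Y _ M a _ => ⟨0, fun H _ => ?_⟩⟩
  have : cnt k H (fun x => ∃ p : ℕ, p.Prime ∧ Y < p ∧ (fun (_ : ℕ) (_ : Fin k → ℤ) => False) p
      (pt M a x)) = 0 := by
    classical
    unfold cnt
    rw [Finset.card_eq_zero, Finset.filter_eq_empty_iff]
    rintro x _ ⟨p, _, _, h⟩
    exact h
  rw [this, Nat.cast_zero]
  positivity

lemma tail_or {P Q : ℕ → (Fin k → ℤ) → Prop} (hP : Tail k P) (hQ : Tail k Q) :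
    Tail k (fun p x => P p x ∨ Q p x) := by
  classical
  intro ε hε
  obtain ⟨Y1, h1⟩ := hP (ε / 2) (by linarith)
  obtain ⟨Y2, h2⟩ := hQ (ε / 2) (by linarith)
  refine ⟨max Y1 Y2, fun Y hY M a hM => ?_⟩
  obtain ⟨H1, g1⟩ := h1 Y ((le_max_left _ _).trans hY) M a hM
  obtain ⟨H2, g2⟩ := h2 Y ((le_max_right _ _).trans hY) M a hM
  refine ⟨max H1 H2, fun H hH => ?_⟩
  have k1 := g1 H ((le_max_left _ _).trans hH)
  have k2 := g2 H ((le_max_right _ _).trans hH)
  have k3 : cnt k H (fun x => ∃ p : ℕ, p.Prime ∧ Y < p ∧ (P p (pt M a x) ∨ Q p (pt M a x))) ≤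
      cnt k H (fun x => ∃ p : ℕ, p.Prime ∧ Y < p ∧ P p (pt M a x)) +
      cnt k H (fun x => ∃ p : ℕ, p.Prime ∧ Y < p ∧ Q p (pt M a x)) := by
    unfold cnt
    refine le_trans (Finset.card_le_card ?_) (Finset.card_union_le _ _)
    intro x hx
    rw [Finset.mem_filter] at hx
    obtain ⟨hx1, p, hp, hYp, h | h⟩ := hx
    · exact Finset.mem_union_left _ (Finset.mem_filter.2 ⟨hx1, p, hp, hYp, h⟩)
    · exact Finset.mem_union_right _ (Finset.mem_filter.2 ⟨hx1, p, hp, hYp, h⟩)
  have k4 : (cnt k H (fun x => ∃ p : ℕ, p.Prime ∧ Y < p ∧ (P p (pt M a x) ∨ Q p (pt M a x))) : ℝ) ≤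
      cnt k H (fun x => ∃ p : ℕ, p.Prime ∧ Y < p ∧ P p (pt M a x)) +
      cnt k H (fun x => ∃ p : ℕ, p.Prime ∧ Y < p ∧ Q p (pt M a x)) := by
    exact_mod_cast k3
  linarith

lemma tail_mono {P Q : ℕ → (Fin k → ℤ) → Prop} (hQ : Tail k Q)
    (h : ∀ p x, p.Prime → P p x → Q p x) : Tail k P := by
  classical
  intro ε hε
  obtain ⟨Y1, h1⟩ := hQ ε hε
  refine ⟨Y1, fun Y hY M a hM => ?_⟩
  obtain ⟨H1, g1⟩ := h1 Y hY M a hM
  refine ⟨H1, fun H hH => le_trans ?_ (g1 H hH)⟩
  unfold cnt
  rw [Nat.cast_le]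
  refine Finset.card_le_card ?_
  intro x hx
  rw [Finset.mem_filter] at hx ⊢
  obtain ⟨hx1, p, hp, hYp, hh⟩ := hx
  exact ⟨hx1, p, hp, hYp, h _ _ hp hh⟩

end tail

lemma tail_multiset {k : ℕ} (hS : Sieve' k) {h : MvPolynomial (Fin (k + 1)) ℤ}
    (f : Multiset (MvPolynomial (Fin k) ℤ)) (hf : ∀ r ∈ f, Irreducible r)
    (hd : ∀ r ∈ f, ¬ rename Fin.succ r ∣ h) :
    Tail (k + 1) (fun p x => ∃ r ∈ f, (p : ℤ) ∣ eval x (rename Fin.succ r) ∧ (p : ℤ) ∣ eval x h) := by
  induction f using Multiset.induction_on with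
  | empty =>
    refine tail_mono tail_false fun p x _ hx => ?_
    obtain ⟨r, hr, _⟩ := hx
    exact absurd hr (Multiset.notMem_zero r)
  | cons r f ih =>
    have h1 := hS r h (hf r (Multiset.mem_cons_self r f)) (hd r (Multiset.mem_cons_self r f))
    have h2 := ih (fun s hs => hf s (Multiset.mem_cons_of_mem hs))
      (fun s hs => hd s (Multiset.mem_cons_of_mem hs))
    refine tail_mono (tail_or h1 h2) fun p x _ hx => ?_
    obtain ⟨s, hs, hx⟩ := hx
    rcases Multiset.mem_cons.1 hs with rfl | hs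
    · exact Or.inl hx
    · exact Or.inr ⟨s, hs, hx⟩

end SV2p

open SV2p

/-- **SV2**: elimination of the variable `X 0`. -/
theorem SV2_ok : S_SV2 := by
  intro k hS h g hirr hdvd
  obtain ⟨P, hP⟩ : ∃ P, P = finSuccEquiv ℤ k h := ⟨_, rfl⟩
  have hPirr : Irreducible P := by rw [hP]; exact (irr_iff k h).2 hirr
  by_cases hdeg : P.natDegree = 0
  · -- the variable does not occur
    obtain ⟨h0, hh0⟩ : ∃ h0 : MvPolynomial (Fin k) ℤ, P = Polynomial.C h0 :=
      ⟨_, Polynomial.eq_C_of_natDegree_eq_zero hdeg⟩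
    have e0 : h = rename Fin.succ h0 := by
      apply (finSuccEquiv ℤ k).injective
      rw [fs_rename, ← hP, hh0]
    have hirr0 : Irreducible h0 := by
      refine ⟨fun hu => ?_, fun a b hab => ?_⟩
      · apply hPirr.not_isUnit
        rw [hh0]
        exact Polynomial.isUnit_C.2 hu
      · have h1 : h = rename Fin.succ a * rename Fin.succ b := by
          rw [e0, hab, map_mul]
        rcases hirr.isUnit_or_isUnit h1 with h2 | h2
        · exact Or.inl (isUnit_rename k a h2)
        · exact Or.inr (isUnit_rename k b h2)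
    have h1 := hS h0 g hirr0 (by rw [← e0]; exact hdvd)
    rw [← e0] at h1
    exact h1
  · -- elimination
    have hPQ : ¬ P ∣ finSuccEquiv ℤ k g := by
      intro hc
      apply hdvd
      have h1 := map_dvd (finSuccEquiv ℤ k).symm hc
      rw [hP, AlgEquiv.symm_apply_apply, AlgEquiv.symm_apply_apply] at h1
      exact h1
    obtain ⟨u, v, R, hR0, huv⟩ := elim hPirr hdeg hPQ
    have hid : (finSuccEquiv ℤ k).symm u * h + (finSuccEquiv ℤ k).symm v * g =
        rename Fin.succ R := by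
      apply (finSuccEquiv ℤ k).injective
      rw [map_add, map_mul, map_mul, AlgEquiv.apply_symm_apply, AlgEquiv.apply_symm_apply,
        fs_rename, ← huv, hP]
    obtain ⟨f, hf, hass⟩ := WfDvdMonoid.exists_factors R hR0
    have hd : ∀ r ∈ f, ¬ rename Fin.succ r ∣ h := by
      intro r hr hc
      have h1 := map_dvd (finSuccEquiv ℤ k) hc
      rw [fs_rename, ← hP] at h1
      obtain ⟨q, hq⟩ := h1
      rcases hPirr.isUnit_or_isUnit hq with h2 | h2
      · exact (hf r hr).not_isUnit (Polynomial.isUnit_C.1 h2)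
      · apply hdeg
        rw [hq]
        have hq0 := Polynomial.natDegree_eq_zero_of_isUnit h2
        have := Polynomial.natDegree_mul_le (p := Polynomial.C r) (q := q)
        rw [Polynomial.natDegree_C, hq0] at this
        omega
    refine tail_mono (tail_multiset hS f hf hd) fun p x hp hx => ?_
    obtain ⟨hx1, hx2⟩ := hx
    have h3 : (p : ℤ) ∣ eval x (rename Fin.succ R) := by
      rw [← hid, map_add, map_mul, map_mul]
      exact dvd_add (dvd_mul_of_dvd_right hx1 _) (dvd_mul_of_dvd_right hx2 _)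
    have h4 : (p : ℤ) ∣ eval x (rename Fin.succ f.prod) := by
      obtain ⟨w, hw⟩ := hass.symm
      rw [← hw, map_mul, map_mul]
      exact dvd_mul_of_dvd_left h3 _
    have hpp : Prime (p : ℤ) := Nat.prime_iff_prime_int.1 hp
    have h5 : eval x (rename Fin.succ f.prod) =
        (f.map fun r => eval x (rename Fin.succ r)).prod := by
      rw [map_multiset_prod, map_multiset_prod, Multiset.map_map]
      rfl
    rw [h5] at h4
    obtain ⟨z, hz, hpz⟩ := hpp.exists_mem_multiset_dvd h4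
    obtain ⟨r, hr, rfl⟩ := Multiset.mem_map.1 hz
    exact ⟨r, hr, hpz, hx1⟩

end Pool.Agent.U41.PH
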